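import Pool.Agent.W803.SQ.Levi

/-! SQ-D: discs in complex tangential directions (helper803). -/

set_option autoImplicit false

open Metric Set Filter Topology

namespace Pool.Agent.W803.SQ
open Pool.Agent.W737.SQ

variable {n : ℕ}

section generic
variable {E : Type*} [NormedAddCommGroup E] [NormedSpace ℝ E]

theorem gsymm {ρ : E → ℝ} (h : ContDiff ℝ ((⊤ : ℕ∞) : WithTop ℕ∞) ρ) (z v w : E) :
    fderiv ℝ (fderiv ℝ ρ) z v w = fderiv ℝ (fderiv ℝ ρ) z w v := by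
  have h1 : ContDiffAt ℝ ((⊤ : ℕ∞) : WithTop ℕ∞) ρ z := h.contDiffAt
  exact (h1.isSymmSndFDerivAt (by
    simp only [minSmoothness_of_isRCLikeNormedField]
    exact WithTop.coe_le_coe.2 le_top)).eq v w

theorem gkey {ρ : E → ℝ} {z : E} {H0 : ℝ} (hH : ‖fderiv ℝ (fderiv ℝ ρ) z‖ ≤ H0) (X Y : E) :
    |fderiv ℝ (fderiv ℝ ρ) z X Y| ≤ H0 * ‖X‖ * ‖Y‖ := by
  have h1 := (fderiv ℝ (fderiv ℝ ρ) z).le_opNorm₂ X Y
  rw [Real.norm_eq_abs] at h1
  refine h1.trans ?_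
  gcongr

omit [NormedSpace ℝ E] in
theorem bdd_of_C0 [ProperSpace E] {F : Type*} [NormedAddCommGroup F] {G : E → F}
    (h : Continuous G) (p : E) (M : ℝ) :
    ∃ C : ℝ, 0 < C ∧ ∀ x ∈ closedBall p M, ‖G x‖ ≤ C := by
  have hc : ContinuousOn (fun z => ‖G z‖) (closedBall p M) := h.norm.continuousOn
  obtain ⟨H, hH⟩ := ((isCompact_closedBall p M).image_of_continuousOn hc).bddAbove
  refine ⟨|H| + 1, by positivity, fun z hz => ?_⟩
  have := hH ⟨z, hz, rfl⟩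
  simp only at this
  linarith [le_abs_self H]

theorem lip_of_C1 [ProperSpace E] {F : Type*} [NormedAddCommGroup F] [NormedSpace ℝ F] {G : E → F}
    (h : ContDiff ℝ 1 G) (p : E) (M : ℝ) :
    ∃ C : ℝ, 0 < C ∧ ∀ x ∈ closedBall p M, ∀ y ∈ closedBall p M, ‖G x - G y‖ ≤ C * ‖x - y‖ := by
  obtain ⟨C, hC, hb⟩ := bdd_of_C0 (h.continuous_fderiv one_ne_zero) p M
  refine ⟨C, hC, fun x hx y hy => ?_⟩
  exact (convex_closedBall p M).norm_image_sub_le_of_norm_fderiv_le (𝕜 := ℝ)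
    (fun z _ => h.differentiable one_ne_zero z) (fun z hz => hb z hz) hy hx

theorem ghess_bound [ProperSpace E] {ρ : E → ℝ} (h : ContDiff ℝ ((⊤ : ℕ∞) : WithTop ℕ∞) ρ)
    (p : E) (M : ℝ) :
    ∃ H0 : ℝ, 0 < H0 ∧ ∀ z ∈ closedBall p M, ∀ X Y : E,
      |fderiv ℝ (fderiv ℝ ρ) z X Y| ≤ H0 * ‖X‖ * ‖Y‖ := by
  have h1 : ContDiff ℝ ((⊤ : ℕ∞) : WithTop ℕ∞) (fderiv ℝ ρ) :=
    h.fderiv_right (by exact_mod_cast le_top)
  have h2 : ContDiff ℝ ((⊤ : ℕ∞) : WithTop ℕ∞) (fderiv ℝ (fderiv ℝ ρ)) :=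
    h1.fderiv_right (by exact_mod_cast le_top)
  obtain ⟨H, hH, hb⟩ := bdd_of_C0 h2.continuous p M
  exact ⟨H, hH, fun z hz X Y => gkey (hb z hz) X Y⟩

/-- abstract second order expansion -/
theorem second_order_abs {ρ : E → ℝ} {D1 : E → E →L[ℝ] ℝ} {D2 : E → E →L[ℝ] E →L[ℝ] ℝ}
    (hd : ∀ x, HasFDerivAt ρ (D1 x) x) (hd1 : ∀ x, HasFDerivAt D1 (D2 x) x)
    (hs : ∀ x v w, D2 x v w = D2 x w v) {p : E} {M L : ℝ} (hL0 : 0 < L)
    (hL : ∀ x ∈ closedBall p M, ∀ y ∈ closedBall p M, ‖D2 x - D2 y‖ ≤ L * ‖x - y‖)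
    (z X : E) (hzX : ‖z - p‖ + ‖X‖ ≤ M) :
    |ρ (z + X) - ρ z - D1 z X - (1 / 2) * D2 z X X| ≤ L * ‖X‖ ^ 3 := by
  set B := D2 z with hB
  have hsub : closedBall z ‖X‖ ⊆ closedBall p M := by
    intro x hx
    rw [mem_closedBall] at hx ⊢
    have := dist_triangle x z p
    rw [dist_eq_norm z p] at this
    linarith
  have hz : z ∈ closedBall z ‖X‖ := mem_closedBall_self (norm_nonneg _)
  have b2 : ∀ x ∈ closedBall z ‖X‖, ‖D2 x - B‖ ≤ L * ‖X‖ := by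
    intro x hx
    refine (hL x (hsub hx) z (hsub hz)).trans (mul_le_mul_of_nonneg_left ?_ hL0.le)
    rwa [mem_closedBall, dist_eq_norm] at hx
  have b1 : ∀ x ∈ closedBall z ‖X‖, ‖D1 x - D1 z - B (x - z)‖ ≤ L * ‖X‖ * ‖X‖ := by
    intro x hx
    have h1 := (convex_closedBall z ‖X‖).norm_image_sub_le_of_norm_hasFDerivWithin_le'
      (𝕜 := ℝ) (φ := B) (f := D1) (f' := D2) (fun y _ => (hd1 y).hasFDerivWithinAt) b2 hz hx
    refine h1.trans (mul_le_mul_of_nonneg_left ?_ (by positivity))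
    rwa [mem_closedBall, dist_eq_norm] at hx
  have hφ : ∀ x : E, HasFDerivAt (fun x => ρ x - (1 / 2) * B (x - z) (x - z))
      (D1 x - B (x - z)) x := by
    intro x
    have h1 : HasFDerivAt (fun x : E => x - z) (ContinuousLinearMap.id ℝ E) x :=
      (hasFDerivAt_id x).sub_const z
    have h2 : HasFDerivAt (fun x : E => B (x - z)) (B.comp (ContinuousLinearMap.id ℝ E)) x :=
      B.hasFDerivAt.comp x h1
    have h3 := (h2.clm_apply h1).const_mul (1 / 2 : ℝ)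
    refine ((hd x).sub h3).congr_fderiv ?_
    ext v
    simp only [sub_apply, smul_apply, add_apply, ContinuousLinearMap.comp_apply,
      ContinuousLinearMap.id_apply, ContinuousLinearMap.flip_apply, smul_eq_mul]
    have h4 : B v (x - z) = B (x - z) v := hs z _ _
    rw [h4]
    ring
  have h1 := (convex_closedBall z ‖X‖).norm_image_sub_le_of_norm_hasFDerivWithin_le'
    (𝕜 := ℝ) (φ := D1 z) (f := fun x => ρ x - (1 / 2) * B (x - z) (x - z))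
    (f' := fun x => D1 x - B (x - z)) (C := L * ‖X‖ * ‖X‖)
    (fun x _ => (hφ x).hasFDerivWithinAt) (fun x hx => by
      have := b1 x hx
      rwa [sub_right_comm] at this) hz (y := z + X) (by
      rw [mem_closedBall, dist_eq_norm, add_sub_cancel_left])
  simp only [add_sub_cancel_left, sub_self, map_zero, mul_zero, sub_zero,
    Real.norm_eq_abs] at h1
  have h2 : ρ (z + X) - ρ z - D1 z X - (1 / 2) * B X X =
      ρ (z + X) - (1 / 2) * B X X - ρ z - D1 z X := by ring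
  rw [h2]
  refine h1.trans (le_of_eq ?_)
  ring

theorem gsecond_order [ProperSpace E] {ρ : E → ℝ} (h : ContDiff ℝ ((⊤ : ℕ∞) : WithTop ℕ∞) ρ)
    (p : E) (M : ℝ) :
    ∃ L : ℝ, 0 < L ∧ ∀ z X : E, ‖z - p‖ + ‖X‖ ≤ M →
      |ρ (z + X) - ρ z - fderiv ℝ ρ z X - (1 / 2) * fderiv ℝ (fderiv ℝ ρ) z X X|
        ≤ L * ‖X‖ ^ 3 := by
  have s1 : ContDiff ℝ ((⊤ : ℕ∞) : WithTop ℕ∞) (fderiv ℝ ρ) :=
    h.fderiv_right (by exact_mod_cast le_top)
  have s2 : ContDiff ℝ ((⊤ : ℕ∞) : WithTop ℕ∞) (fderiv ℝ (fderiv ℝ ρ)) :=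
    s1.fderiv_right (by exact_mod_cast le_top)
  obtain ⟨L, hL0, hL⟩ := lip_of_C1 (s2.of_le (by exact_mod_cast le_top)) p M
  have hd : Differentiable ℝ ρ := h.differentiable (by simp)
  have hd1 : Differentiable ℝ (fderiv ℝ ρ) := s1.differentiable (by simp)
  exact ⟨L, hL0, fun z X hzX => second_order_abs (fun x => (hd x).hasFDerivAt)
    (fun x => (hd1 x).hasFDerivAt) (fun x v w => gsymm h x v w) hL0 hL z X hzX⟩

end generic

theorem symm {ρ : V n → ℝ} (h : ContDiff ℝ ((⊤ : ℕ∞) : WithTop ℕ∞) ρ) (z v w : V n) :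
    fderiv ℝ (fderiv ℝ ρ) z v w = fderiv ℝ (fderiv ℝ ρ) z w v := gsymm h z v w

theorem hess_bound {ρ : V n → ℝ} (h : ContDiff ℝ ((⊤ : ℕ∞) : WithTop ℕ∞) ρ) (p : V n) (M : ℝ) :
    ∃ H0 : ℝ, 0 < H0 ∧ ∀ z ∈ closedBall p M, ∀ X Y : V n,
      |fderiv ℝ (fderiv ℝ ρ) z X Y| ≤ H0 * ‖X‖ * ‖Y‖ := ghess_bound h p M

theorem second_order {ρ : V n → ℝ} (h : ContDiff ℝ ((⊤ : ℕ∞) : WithTop ℕ∞) ρ) (p : V n) (M : ℝ) :
    ∃ L : ℝ, 0 < L ∧ ∀ z X : V n, ‖z - p‖ + ‖X‖ ≤ M →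
      |ρ (z + X) - ρ z - fderiv ℝ ρ z X - (1 / 2) * fderiv ℝ (fderiv ℝ ρ) z X X|
        ≤ L * ‖X‖ ^ 3 := gsecond_order h p M

theorem re_ell (ρ : V n → ℝ) (z X : V n) : (ell ρ z X).re = fderiv ℝ ρ z X := by
  unfold ell
  simp

/-- the complex number encoding the (2,0)-part of the Hessian -/
noncomputable def qq (ρ : V n → ℝ) (z w : V n) : ℂ :=
  (((1 / 2) * (fderiv ℝ (fderiv ℝ ρ) z w w -
    fderiv ℝ (fderiv ℝ ρ) z (Complex.I • w) (Complex.I • w)) : ℝ) : ℂ)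
    - Complex.I * ((fderiv ℝ (fderiv ℝ ρ) z w (Complex.I • w) : ℝ) : ℂ)

theorem hess_smul {ρ : V n → ℝ} (h : ContDiff ℝ ((⊤ : ℕ∞) : WithTop ℕ∞) ρ) (z w : V n) (t : ℂ) :
    fderiv ℝ (fderiv ℝ ρ) z (t • w) (t • w) = ‖t‖ ^ 2 / 2 * H4 ρ z w + (t ^ 2 * qq ρ z w).re := by
  have h1 : ‖t‖ ^ 2 = t.re ^ 2 + t.im ^ 2 := by
    rw [Complex.sq_norm, Complex.normSq_apply]; ring
  rw [h1]
  unfold qq H4
  rw [smul_decomp t w]
  simp only [map_add, map_smul, add_apply, smul_apply, smul_eq_mul]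
  rw [symm h z (Complex.I • w) w]
  have h2 : (t ^ 2).re = t.re ^ 2 - t.im ^ 2 := by
    rw [sq, Complex.mul_re]; ring
  have h3 : (t ^ 2).im = 2 * t.re * t.im := by
    rw [sq, Complex.mul_im]; ring
  rw [Complex.mul_re, h2, h3]
  simp
  ring

theorem qq_bound {ρ : V n → ℝ} {z w : V n} {H0 B : ℝ} (hH0 : 0 ≤ H0)
    (hH : ∀ X Y : V n, |fderiv ℝ (fderiv ℝ ρ) z X Y| ≤ H0 * ‖X‖ * ‖Y‖)
    (hw : ‖w‖ ≤ B) : ‖qq ρ z w‖ ≤ 2 * H0 * B ^ 2 := by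
  have hI : ‖Complex.I • w‖ = ‖w‖ := by rw [norm_smul, Complex.norm_I, one_mul]
  have key : ∀ X Y : V n, ‖X‖ ≤ B → ‖Y‖ ≤ B → |fderiv ℝ (fderiv ℝ ρ) z X Y| ≤ H0 * B ^ 2 := by
    intro X Y hX hY
    refine (hH X Y).trans ?_
    have h2 : H0 * ‖X‖ ≤ H0 * B := mul_le_mul_of_nonneg_left hX hH0
    have h3 : H0 * ‖X‖ * ‖Y‖ ≤ H0 * B * B :=
      mul_le_mul h2 hY (norm_nonneg _) (mul_nonneg hH0 ((norm_nonneg _).trans hX))
    linarith
  have h1 := key w w hw hw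
  have h2 := key (Complex.I • w) (Complex.I • w) (hI.le.trans hw) (hI.le.trans hw)
  have h3 := key w (Complex.I • w) hw (hI.le.trans hw)
  unfold qq
  refine (norm_sub_le _ _).trans ?_
  rw [norm_mul, Complex.norm_I, one_mul, Complex.norm_real, Complex.norm_real, Real.norm_eq_abs,
    Real.norm_eq_abs, abs_mul]
  have h4 := abs_sub (fderiv ℝ (fderiv ℝ ρ) z w w)
    (fderiv ℝ (fderiv ℝ ρ) z (Complex.I • w) (Complex.I • w))
  have h5 : |(1 / 2 : ℝ)| = 1 / 2 := abs_of_pos (by norm_num)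
  rw [h5]
  linarith

/-- SQ-D -/
theorem disc : S_disc := by
  intro n ρ p B hρ hp hB
  obtain ⟨e, he⟩ : ∃ e, fderiv ℝ ρ p e ≠ 0 := by
    by_contra hcon
    push Not at hcon
    exact hp (ContinuousLinearMap.ext hcon)
  have hell : Continuous (fun z => ell ρ z e) := (smooth_ell hρ e).continuous
  have hne : ell ρ p e ≠ 0 := fun h => he (ell_eq_zero h).1
  have hδ : 0 < ‖ell ρ p e‖ / 2 := by positivity
  set δ := ‖ell ρ p e‖ / 2 with hδd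
  obtain ⟨R1, hR1, hR1'⟩ := Metric.continuousAt_iff.1 hell.norm.continuousAt δ hδ
  obtain ⟨H0, hH0, hHb⟩ := hess_bound hρ p 1
  set b : ℝ := H0 * B ^ 2 / δ with hb
  have hb0 : 0 ≤ b := by positivity
  set C : ℝ := B + b * ‖e‖ with hC
  have hC0 : 0 < C := by positivity
  obtain ⟨L, hL, hLb⟩ := second_order hρ p (1 + C)
  set K1 : ℝ := H0 * (B * (b * ‖e‖)) + H0 * (b * ‖e‖) ^ 2 with hK1
  have hK10 : 0 ≤ K1 := by positivity
  set K2 : ℝ := K1 + L * C ^ 3 with hK2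
  have hK20 : 0 < K2 := by positivity
  refine ⟨K2 + 1, min R1 1, by positivity, lt_min hR1 one_pos, ?_⟩
  intro z hz hρz w hw hw1 hw2 r hr hr1 hr2 hr3
  have hzR : ‖z - p‖ < R1 := hz.trans_le (min_le_left _ _)
  have hz1 : ‖z - p‖ < 1 := hz.trans_le (min_le_right _ _)
  have hδz : δ ≤ ‖ell ρ z e‖ := by
    have h1 := hR1' (x := z) (by rw [dist_eq_norm]; exact hzR)
    rw [Real.dist_eq] at h1
    have h2 := (abs_lt.1 h1).1
    linarith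
  have hez : ell ρ z e ≠ 0 := norm_pos_iff.1 (hδ.trans_le hδz)
  have key : ∀ X Y : V n, |fderiv ℝ (fderiv ℝ ρ) z X Y| ≤ H0 * ‖X‖ * ‖Y‖ := hHb z (by
    rw [mem_closedBall, dist_eq_norm]; exact hz1.le)
  set q := qq ρ z w with hq
  have hqb : ‖q‖ ≤ 2 * H0 * B ^ 2 := qq_bound hH0.le key hw
  set β : ℂ := -q / (2 * ell ρ z e) with hβ
  have hβb : ‖β‖ ≤ b := by
    rw [hβ, norm_div, norm_neg, norm_mul, Complex.norm_two, hb,
      div_le_div_iff₀ (by positivity) hδ]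
    have h1 : ‖q‖ * δ ≤ (2 * H0 * B ^ 2) * ‖ell ρ z e‖ :=
      mul_le_mul hqb hδz hδ.le (by positivity)
    linarith
  refine ⟨fun t => z + t • w + (β * t ^ 2) • e, ?_, by simp, ?_, ?_⟩
  · exact ((differentiable_const z).add (differentiable_id.smul_const w)).add
      (((differentiable_id.pow 2).const_mul β).smul_const e)
  · have h1 : HasDerivAt (fun t : ℂ => z + t • w + (β * t ^ 2) • e)
        ((1 : ℂ) • w + (β * (2 * 0)) • e) 0 := by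
      have h2 : HasDerivAt (fun t : ℂ => t ^ 2) (2 * 0) 0 := by
        simpa using (hasDerivAt_pow 2 (0 : ℂ))
      exact (((hasDerivAt_id (0 : ℂ)).smul_const w).const_add z).add
        ((h2.const_mul β).smul_const e)
    rw [h1.deriv]
    simp
  · intro t ht
    have ht1 : ‖t‖ ≤ 1 := ht.le.trans hr1
    set a : V n := t • w with ha
    set c : V n := (β * t ^ 2) • e with hc
    have hna : ‖a‖ ≤ B * ‖t‖ := by
      rw [ha, norm_smul, mul_comm]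
      exact mul_le_mul_of_nonneg_right hw (norm_nonneg _)
    have hnc : ‖c‖ ≤ b * ‖e‖ * ‖t‖ ^ 2 := by
      rw [hc, norm_smul, norm_mul, norm_pow]
      have : ‖β‖ * ‖t‖ ^ 2 * ‖e‖ ≤ b * ‖t‖ ^ 2 * ‖e‖ :=
        mul_le_mul_of_nonneg_right (mul_le_mul_of_nonneg_right hβb (by positivity))
          (norm_nonneg _)
      linarith
    have ht2 : ‖t‖ ^ 2 ≤ ‖t‖ := by nlinarith [norm_nonneg t]
    have ht4 : ‖t‖ ^ 4 ≤ ‖t‖ ^ 3 := pow_le_pow_of_le_one (norm_nonneg _) ht1 (by norm_num)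
    have hnX : ‖a + c‖ ≤ C * ‖t‖ := by
      refine (norm_add_le _ _).trans ?_
      have h1 : b * ‖e‖ * ‖t‖ ^ 2 ≤ b * ‖e‖ * ‖t‖ := mul_le_mul_of_nonneg_left ht2 (by positivity)
      rw [hC, add_mul]
      linarith
    have hX1 : ‖z - p‖ + ‖a + c‖ ≤ 1 + C := by
      have : C * ‖t‖ ≤ C := by nlinarith
      linarith
    have hT := (abs_le.1 (hLb z (a + c) hX1)).2
    have hX3 : L * ‖a + c‖ ^ 3 ≤ L * C ^ 3 * ‖t‖ ^ 3 := by
      have := pow_le_pow_left₀ (norm_nonneg _) hnX 3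
      rw [mul_pow] at this
      have := mul_le_mul_of_nonneg_left this hL.le
      linarith
    have hDa : fderiv ℝ ρ z a = 0 := by
      rw [ha, smul_decomp t w, map_add, (fderiv ℝ ρ z).map_smul, (fderiv ℝ ρ z).map_smul, hw1, hw2]
      simp
    have hDc : fderiv ℝ ρ z c = -(1 / 2) * (t ^ 2 * q).re := by
      rw [← re_ell, hc, ell_smul]
      have h1 : β * t ^ 2 * ell ρ z e = ((-(1 / 2) : ℝ) : ℂ) * (t ^ 2 * q) := by
        rw [hβ]
        push_cast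
        field_simp
      rw [h1, Complex.re_ofReal_mul]
    have hHX : fderiv ℝ (fderiv ℝ ρ) z (a + c) (a + c) ≤
        ‖t‖ ^ 2 / 2 * H4 ρ z w + (t ^ 2 * q).re + 2 * (K1 * ‖t‖ ^ 3) := by
      have h1 : fderiv ℝ (fderiv ℝ ρ) z (a + c) (a + c) = fderiv ℝ (fderiv ℝ ρ) z a a +
          2 * fderiv ℝ (fderiv ℝ ρ) z a c + fderiv ℝ (fderiv ℝ ρ) z c c := by
        have e1 : fderiv ℝ (fderiv ℝ ρ) z (a + c) =
          fderiv ℝ (fderiv ℝ ρ) z a + fderiv ℝ (fderiv ℝ ρ) z c := map_add _ _ _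
        rw [e1, add_apply, map_add, map_add, symm hρ z c a]
        ring
      rw [h1, ha, hess_smul hρ z w t, ← ha]
      have h2 : fderiv ℝ (fderiv ℝ ρ) z a c ≤ H0 * (B * ‖t‖) * (b * ‖e‖ * ‖t‖ ^ 2) := by
        refine (le_abs_self _).trans ((key a c).trans ?_)
        gcongr
      have h3 : fderiv ℝ (fderiv ℝ ρ) z c c ≤
          H0 * (b * ‖e‖ * ‖t‖ ^ 2) * (b * ‖e‖ * ‖t‖ ^ 2) := by
        refine (le_abs_self _).trans ((key c c).trans ?_)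
        gcongr
      have h4 : H0 * (b * ‖e‖ * ‖t‖ ^ 2) * (b * ‖e‖ * ‖t‖ ^ 2) ≤ H0 * (b * ‖e‖) ^ 2 * ‖t‖ ^ 3 := by
        have : H0 * (b * ‖e‖ * ‖t‖ ^ 2) * (b * ‖e‖ * ‖t‖ ^ 2) =
          H0 * (b * ‖e‖) ^ 2 * ‖t‖ ^ 4 := by ring
        rw [this]
        exact mul_le_mul_of_nonneg_left ht4 (by positivity)
      have h5 : 0 ≤ H0 * (b * ‖e‖) ^ 2 * ‖t‖ ^ 3 := by positivity
      have e5 : 2 * (K1 * ‖t‖ ^ 3) = 2 * (H0 * (B * ‖t‖) * (b * ‖e‖ * ‖t‖ ^ 2)) +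
        2 * (H0 * (b * ‖e‖) ^ 2 * ‖t‖ ^ 3) := by rw [hK1]; ring
      rw [e5]
      linarith
    have hmax : H4 ρ z w ≤ max 0 (H4 ρ z w) := le_max_right _ _
    have hmax0 : 0 ≤ max 0 (H4 ρ z w) := le_max_left _ _
    have htr2 : ‖t‖ ^ 2 ≤ r ^ 2 := pow_le_pow_left₀ (norm_nonneg _) ht.le 2
    have htr3 : ‖t‖ ^ 3 ≤ r ^ 3 := pow_le_pow_left₀ (norm_nonneg _) ht.le 3
    have hA : ‖t‖ ^ 2 * H4 ρ z w ≤ r ^ 2 * max 0 (H4 ρ z w) :=
      (mul_le_mul_of_nonneg_left hmax (by positivity)).trans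
        (mul_le_mul_of_nonneg_right htr2 hmax0)
    have hB' : K2 * ‖t‖ ^ 3 ≤ K2 * r ^ 3 := mul_le_mul_of_nonneg_left htr3 hK20.le
    have hr30 : 0 < r ^ 3 := by positivity
    have hmr : 0 ≤ max 0 (H4 ρ z w) * r ^ 2 := by positivity
    have hfin : ρ (z + (a + c)) ≤ ρ z + (1 / 4) * (r ^ 2 * max 0 (H4 ρ z w)) + K2 * r ^ 3 := by
      rw [map_add, hDa, hDc] at hT
      have e2 : K2 * ‖t‖ ^ 3 = K1 * ‖t‖ ^ 3 + L * C ^ 3 * ‖t‖ ^ 3 := by rw [hK2]; ring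
      linarith
    show ρ (z + a + c) < 0
    rw [add_assoc]
    have h1 : (K2 + 1) * (K2 * r ^ 3) ≤ K2 * (-ρ z) := by
      have := mul_le_mul_of_nonneg_left hr3 hK20.le
      linarith
    have h2 : (K2 + 1) * (r ^ 2 * max 0 (H4 ρ z w)) ≤ -ρ z := by linarith
    have h3 : (K2 + 1) * ρ (z + (a + c)) < 0 := by
      have h4 := mul_le_mul_of_nonneg_left hfin (by positivity : 0 ≤ K2 + 1)
      have e3 : (K2 + 1) * (ρ z + (1 / 4) * (r ^ 2 * max 0 (H4 ρ z w)) + K2 * r ^ 3) =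
        K2 * ρ z + ρ z + (1 / 4) * ((K2 + 1) * (r ^ 2 * max 0 (H4 ρ z w)))
          + (K2 + 1) * (K2 * r ^ 3) := by ring
      rw [e3] at h4
      linarith
    by_contra hcon
    push Not at hcon
    have := mul_nonneg (by positivity : 0 ≤ K2 + 1) hcon
    linarith

/-- SQ-D -/
theorem disc_main : S_disc := disc

end Pool.Agent.W803.SQ
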