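import Pool.Agent.W803.SQ.Jet

/-! SQ-F: flattening the boundary along a transversal slice (helper803). -/

set_option autoImplicit false

open Metric Set Filter Topology

namespace Pool.Agent.W803.SQ
open Pool.Agent.W737.SQ

/-- a real polynomial that is `O(|y|^N)` at zero is divisible by `X^N` -/
theorem X_pow_dvd (N : ℕ) : ∀ (P : Polynomial ℝ) (K : ℝ),
    (∀ y : ℝ, |y| ≤ 1 → |P.eval y| ≤ K * |y| ^ N) → Polynomial.X ^ N ∣ P := by
  induction N with
  | zero => intro P K _; simp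
  | succ N ih =>
    intro P K hP
    have h0 : P.coeff 0 = 0 := by
      have h := hP 0 (by simp)
      simp only [abs_zero, ne_eq, Nat.add_eq_zero_iff, one_ne_zero, and_false,
        not_false_eq_true, zero_pow, mul_zero] at h
      rw [Polynomial.coeff_zero_eq_eval_zero]
      exact abs_nonpos_iff.1 h
    obtain ⟨Q, hQ⟩ := Polynomial.X_dvd_iff.2 h0
    have h1 : Polynomial.X ^ N ∣ Q := by
      refine ih Q K fun y hy => ?_
      have hne : ∀ x : ℝ, x ≠ 0 → |x| ≤ 1 → |Q.eval x| ≤ K * |x| ^ N := by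
        intro x hx hx1
        have h := hP x hx1
        rw [hQ, Polynomial.eval_mul, Polynomial.eval_X, abs_mul, pow_succ] at h
        have hx' : 0 < |x| := abs_pos.2 hx
        have h2 : |x| * |Q.eval x| ≤ |x| * (K * |x| ^ N) := by linarith
        exact le_of_mul_le_mul_left h2 hx'
      rcases eq_or_ne y 0 with rfl | hy0
      · have hc1 : Tendsto (fun x : ℝ => |Q.eval x|) (𝓝[≠] 0) (𝓝 |Q.eval 0|) :=
          (Q.continuous.abs.tendsto 0).mono_left nhdsWithin_le_nhds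
        have hc2 : Tendsto (fun x : ℝ => K * |x| ^ N) (𝓝[≠] 0) (𝓝 (K * |(0 : ℝ)| ^ N)) :=
          ((continuous_const.mul (continuous_abs.pow N)).tendsto 0).mono_left nhdsWithin_le_nhds
        refine le_of_tendsto_of_tendsto hc1 hc2 ?_
        have h3 : ∀ᶠ x : ℝ in 𝓝[≠] 0, |x| < 1 := by
          refine nhdsWithin_le_nhds ?_
          filter_upwards [Metric.ball_mem_nhds (0 : ℝ) one_pos] with x hx
          simpa [Real.dist_eq] using hx
        filter_upwards [h3, self_mem_nhdsWithin] with x hx hx0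
        exact hne x hx0 hx.le
      · exact hne y hy0 hy
    rw [hQ, pow_succ']
    exact mul_dvd_mul_left _ h1

/-- a smooth function that is `O(|y|^N)` is `e y^N + O(|y|^(N+1))` -/
theorem leading {g : ℝ → ℝ} (hg : ContDiff ℝ ((⊤ : ℕ∞) : WithTop ℕ∞) g) {N : ℕ} {K r : ℝ}
    (hr : 0 < r) (hK : ∀ y : ℝ, |y| ≤ r → |g y| ≤ K * |y| ^ N) :
    ∃ e K' : ℝ, 0 < K' ∧ ∀ y : ℝ, |y| ≤ 1 → |g y - e * y ^ N| ≤ K' * |y| ^ (N + 1) := by
  obtain ⟨K1, hK1, hb⟩ := taylor1 (N + 1) g hg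
  set P : Polynomial ℝ := ∑ j ∈ Finset.range (N + 1),
    Polynomial.C (iteratedDeriv j g 0 / (j.factorial : ℝ)) * Polynomial.X ^ j with hP
  have hPe : ∀ y : ℝ, ∑ j ∈ Finset.range (N + 1), (y ^ j / (j.factorial : ℝ)) • iteratedDeriv j g 0
      = P.eval y := by
    intro y
    rw [hP, Polynomial.eval_finsetSum]
    refine Finset.sum_congr rfl fun j _ => ?_
    rw [Polynomial.eval_mul, Polynomial.eval_C, Polynomial.eval_pow, Polynomial.eval_X,
      smul_eq_mul]
    ring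
  have hdeg : P.natDegree ≤ N := by
    rw [hP]
    refine Polynomial.natDegree_sum_le_of_forall_le _ _ fun j hj => ?_
    refine (Polynomial.natDegree_C_mul_X_pow_le _ _).trans ?_
    have := Finset.mem_range.1 hj
    omega
  -- a global bound on `[-1,1]`
  have hPb : ∃ K2 : ℝ, ∀ y : ℝ, |y| ≤ 1 → |P.eval y| ≤ K2 * |y| ^ N := by
    have hc : ContinuousOn (fun y => |P.eval y|) (Icc (-1 : ℝ) 1) :=
      P.continuous.abs.continuousOn
    obtain ⟨M, hM⟩ := (isCompact_Icc.image_of_continuousOn hc).bddAbove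
    refine ⟨|K| + K1 + |M| / (min r 1) ^ N, fun y hy => ?_⟩
    have hm : 0 < min r 1 := lt_min hr one_pos
    rcases le_or_gt |y| (min r 1) with h | h
    · have h1 := hb y hy
      rw [hPe, Real.norm_eq_abs] at h1
      have h2 := hK y (h.trans (min_le_left _ _))
      have h3 : |P.eval y| ≤ |g y - P.eval y| + |g y| := by
        have := abs_sub_abs_le_abs_sub (P.eval y) (g y)
        rw [abs_sub_comm] at this
        linarith
      have h4 : |y| ^ (N + 1) ≤ |y| ^ N := pow_le_pow_of_le_one (abs_nonneg _) hy (Nat.le_succ _)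
      have h5 : 0 ≤ |y| ^ N := by positivity
      have h6 : 0 ≤ |M| / (min r 1) ^ N := by positivity
      have h7 : K * |y| ^ N ≤ |K| * |y| ^ N := mul_le_mul_of_nonneg_right (le_abs_self _) h5
      nlinarith [mul_nonneg h6 h5]
    · have h1 : |P.eval y| ≤ M := hM ⟨y, abs_le.1 hy, rfl⟩
      have h2 : |M| / (min r 1) ^ N * (min r 1) ^ N ≤ |M| / (min r 1) ^ N * |y| ^ N :=
        mul_le_mul_of_nonneg_left (pow_le_pow_left₀ hm.le h.le _) (by positivity)
      rw [div_mul_cancel₀ _ (by positivity)] at h2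
      have h3 : 0 ≤ (|K| + K1) * |y| ^ N := by positivity
      nlinarith [le_abs_self M]
  obtain ⟨K2, hK2⟩ := hPb
  obtain ⟨Q, hQ⟩ := X_pow_dvd N P K2 hK2
  refine ⟨Q.coeff 0, K1, hK1, fun y hy => ?_⟩
  have hQ0 : P = Polynomial.X ^ N * Polynomial.C (Q.coeff 0) := by
    rcases eq_or_ne Q 0 with h | h
    · rw [hQ, h]; simp
    · have h1 : P.natDegree = N + Q.natDegree := by
        rw [hQ, Polynomial.natDegree_X_pow_mul _ h]
        exact Nat.add_comm _ _
      have h2 : Q.natDegree = 0 := by omega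
      rw [hQ]
      congr 1
      exact Polynomial.eq_C_of_natDegree_eq_zero h2
  have h1 := hb y hy
  rw [hPe, hQ0, Polynomial.eval_mul, Polynomial.eval_pow, Polynomial.eval_X, Polynomial.eval_C,
    Real.norm_eq_abs, mul_comm (y ^ N)] at h1
  exact h1

theorem smooth_slice {n : ℕ} {ρ : V n → ℝ} (hρ : ContDiff ℝ ((⊤ : ℕ∞) : WithTop ℕ∞) ρ)
    (p e : V n) (c : Polynomial ℂ) :
    ContDiff ℝ ((⊤ : ℕ∞) : WithTop ℕ∞)
      (fun y : ℝ => ρ (p + (c.eval (Complex.I * (y : ℂ))) • e)) := by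
  have h1 : ContDiff ℝ ((⊤ : ℕ∞) : WithTop ℕ∞) (fun y : ℝ => Complex.I * (y : ℂ)) :=
    contDiff_const.mul Complex.ofRealCLM.contDiff
  have h2 : ContDiff ℝ ((⊤ : ℕ∞) : WithTop ℕ∞) (fun z : ℂ => c.eval z) := by
    have : ContDiff ℂ ((⊤ : ℕ∞) : WithTop ℕ∞) (fun z : ℂ => c.eval z) := by
      simpa using (Polynomial.contDiff_aeval c ((⊤ : ℕ∞) : WithTop ℕ∞) : 
        ContDiff ℂ _ (fun z : ℂ => Polynomial.aeval z c))
    exact this.restrict_scalars ℝ
  have h3 : ContDiff ℝ ((⊤ : ℕ∞) : WithTop ℕ∞)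
      (fun y : ℝ => (c.eval (Complex.I * (y : ℂ))) • e) := by
    have h4 : (fun y : ℝ => (c.eval (Complex.I * (y : ℂ))) • e) =
      fun y : ℝ => ((ContinuousLinearMap.toSpanSingleton ℂ e).restrictScalars ℝ)
        (c.eval (Complex.I * (y : ℂ))) := by
      funext y
      simp
    rw [h4]
    exact ((ContinuousLinearMap.toSpanSingleton ℂ e).restrictScalars ℝ).contDiff.comp
      (h2.comp h1)
  exact hρ.comp (contDiff_const.add h3)

/-- the polynomial curve is Lipschitz at the origin -/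
theorem poly_bound (c : Polynomial ℂ) (h0 : c.coeff 0 = 0) :
    ∃ C : ℝ, 0 < C ∧ ∀ z : ℂ, ‖z‖ ≤ 1 → ‖c.eval z‖ ≤ C * ‖z‖ := by
  obtain ⟨Q, hQ⟩ := Polynomial.X_dvd_iff.2 h0
  have hc : ContinuousOn (fun z => ‖Q.eval z‖) (closedBall (0 : ℂ) 1) :=
    Q.continuous.norm.continuousOn
  obtain ⟨M, hM⟩ := ((isCompact_closedBall (0 : ℂ) 1).image_of_continuousOn hc).bddAbove
  refine ⟨|M| + 1, by positivity, fun z hz => ?_⟩
  have h1 : ‖Q.eval z‖ ≤ M := hM ⟨z, by simpa using hz, rfl⟩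
  rw [hQ, Polynomial.eval_mul, Polynomial.eval_X, norm_mul]
  nlinarith [norm_nonneg z, le_abs_self M, norm_nonneg (Q.eval z)]

/-- first order expansion with a Lipschitz derivative -/
theorem first_order {n : ℕ} {ρ : V n → ℝ} (hρ : ContDiff ℝ ((⊤ : ℕ∞) : WithTop ℕ∞) ρ)
    (p : V n) : ∃ L δ : ℝ, 0 < L ∧ 0 < δ ∧ ∀ z X : V n, ‖z - p‖ + ‖X‖ < δ →
      |ρ (z + X) - ρ z - fderiv ℝ ρ p X| ≤ L * (‖z - p‖ + ‖X‖) * ‖X‖ := by
  have hd : Differentiable ℝ ρ := hρ.differentiable (by simp)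
  have h1 : ContDiff ℝ 1 (fderiv ℝ ρ) :=
    (hρ.fderiv_right (m := ((⊤ : ℕ∞) : WithTop ℕ∞)) (by exact_mod_cast le_top)).of_le
      (by exact_mod_cast le_top)
  obtain ⟨L, t, ht, hL⟩ := h1.locallyLipschitz p
  obtain ⟨δ, hδ, hδt⟩ := Metric.mem_nhds_iff.1 ht
  refine ⟨L + 1, δ, by positivity, hδ, fun z X hzX => ?_⟩
  have hb : ∀ x ∈ closedBall p (‖z - p‖ + ‖X‖), ‖fderiv ℝ ρ x - fderiv ℝ ρ p‖
      ≤ (L + 1) * (‖z - p‖ + ‖X‖) := by
    intro x hx
    rw [mem_closedBall] at hx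
    have h2 := hL.dist_le_mul x (hδt (by rw [Metric.mem_ball]; linarith)) p
      (hδt (Metric.mem_ball_self hδ))
    rw [dist_eq_norm (fderiv ℝ ρ x)] at h2
    have h3 : (L : ℝ) * dist x p ≤ (L + 1) * (‖z - p‖ + ‖X‖) := by
      have h4 : (0 : ℝ) ≤ L := L.coe_nonneg
      have h5 : 0 ≤ dist x p := dist_nonneg
      nlinarith [norm_nonneg (z - p), norm_nonneg X]
    exact h2.trans h3
  have h2 := (convex_closedBall p (‖z - p‖ + ‖X‖)).norm_image_sub_le_of_norm_fderiv_le'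
    (fun x _ => hd x) hb (x := z) (y := z + X) (by
      rw [mem_closedBall, dist_eq_norm]; linarith [norm_nonneg X]) (by
      rw [mem_closedBall, dist_eq_norm]
      have : z + X - p = (z - p) + X := by abel
      rw [this]
      exact norm_add_le _ _)
  rw [add_sub_cancel_left, Real.norm_eq_abs] at h2
  exact h2

/-- SQ-F -/
theorem flat : S_flat := by
  intro n ρ p e hρ hp he hIe N
  have base : ∀ M ≤ 2, ∃ c : Polynomial ℂ, c.coeff 0 = 0 ∧ c.coeff 1 = 1 ∧ ∃ K r : ℝ, 0 < K ∧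
      0 < r ∧ ∀ y : ℝ, |y| ≤ r → |ρ (p + (c.eval (Complex.I * (y : ℂ))) • e)| ≤ K * |y| ^ M := by
    intro M hM
    refine ⟨Polynomial.X, by simp, by simp, ?_⟩
    obtain ⟨L, δ, hL, hδ, hLδ⟩ := first_order hρ p
    refine ⟨L * (‖e‖ + 1) * (‖e‖ + 1), min 1 (δ / (2 * (‖e‖ + 1))), by positivity, by positivity,
      fun y hy => ?_⟩
    have hy1 : |y| ≤ 1 := hy.trans (min_le_left _ _)
    have hy2 : |y| ≤ δ / (2 * (‖e‖ + 1)) := hy.trans (min_le_right _ _)
    rw [le_div_iff₀ (by positivity)] at hy2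
    rw [Polynomial.eval_X]
    have hX : (Complex.I * (y : ℂ)) • e = y • (Complex.I • e) := by
      rw [mul_comm, mul_smul, Complex.coe_smul]
    have hn : ‖y • (Complex.I • e)‖ = |y| * ‖e‖ := by
      rw [norm_smul, norm_smul, Complex.norm_I, one_mul, Real.norm_eq_abs]
    have h1 := hLδ p (y • (Complex.I • e)) (by
      rw [sub_self, norm_zero, hn]
      nlinarith [norm_nonneg e, abs_nonneg y])
    rw [hp, (fderiv ℝ ρ p).map_smul, hIe, smul_zero, sub_zero, sub_zero, sub_self, norm_zero,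
      zero_add, hn] at h1
    rw [hX]
    refine h1.trans ?_
    have h2 : |y| ^ 2 ≤ |y| ^ M := pow_le_pow_of_le_one (abs_nonneg _) hy1 hM
    have h3 : L * (|y| * ‖e‖) * (|y| * ‖e‖) ≤ L * (‖e‖ + 1) * (‖e‖ + 1) * |y| ^ 2 := by
      have h4 : L * (|y| * ‖e‖) * (|y| * ‖e‖) = (L * |y| ^ 2) * (‖e‖ * ‖e‖) := by ring
      have h5 : L * (‖e‖ + 1) * (‖e‖ + 1) * |y| ^ 2 = (L * |y| ^ 2) * ((‖e‖ + 1) * (‖e‖ + 1)) := by
        ring
      rw [h4, h5]
      refine mul_le_mul_of_nonneg_left ?_ (by positivity)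
      nlinarith [norm_nonneg e]
    exact h3.trans (mul_le_mul_of_nonneg_left h2 (by positivity))
  induction N with
  | zero => exact base 0 (by norm_num)
  | succ N ih =>
    rcases Nat.lt_or_ge N 2 with hN | hN
    · exact base (N + 1) hN
    obtain ⟨c, hc0, hc1, K, r, hK, hr, hb⟩ := ih
    obtain ⟨eN, K1, hK1, hlead⟩ := leading (smooth_slice hρ p e c) hr hb
    obtain ⟨L, δ, hL, hδ, hLδ⟩ := first_order hρ p
    obtain ⟨C, hC, hCb⟩ := poly_bound c hc0
    set γ : ℂ := (eN : ℂ) * (-Complex.I) ^ N with hγ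
    refine ⟨c + Polynomial.C γ * Polynomial.X ^ N, ?_, ?_, ?_⟩
    · rw [Polynomial.coeff_add, hc0, Polynomial.coeff_C_mul_X_pow]
      rw [if_neg (by omega), add_zero]
    · rw [Polynomial.coeff_add, hc1, Polynomial.coeff_C_mul_X_pow]
      rw [if_neg (by omega), add_zero]
    set A : ℝ := (C + |eN|) * (‖e‖ + 1) with hA
    have hA0 : 0 < A := by positivity
    refine ⟨K1 + L * A * (|eN| * (‖e‖ + 1)), min 1 (δ / (2 * A)), by positivity,
      by positivity, fun y hy => ?_⟩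
    have hy1 : |y| ≤ 1 := hy.trans (min_le_left _ _)
    have hy2 : |y| ≤ δ / (2 * A) := hy.trans (min_le_right _ _)
    rw [le_div_iff₀ (by positivity)] at hy2
    have hIy : ‖Complex.I * (y : ℂ)‖ = |y| := by
      rw [norm_mul, Complex.norm_I, one_mul, Complex.norm_real, Real.norm_eq_abs]
    have hγy : γ * (Complex.I * (y : ℂ)) ^ N = ((eN * y ^ N : ℝ) : ℂ) := by
      rw [hγ, mul_assoc, ← mul_pow]
      have : -Complex.I * (Complex.I * (y : ℂ)) = (y : ℂ) := by
        rw [← mul_assoc, neg_mul, Complex.I_mul_I, neg_neg, one_mul]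
      rw [this]
      push_cast
      rfl
    set z : V n := p + (c.eval (Complex.I * (y : ℂ))) • e with hz
    set X : V n := (eN * y ^ N) • e with hX
    have hzX : p + ((c + Polynomial.C γ * Polynomial.X ^ N).eval (Complex.I * (y : ℂ))) • e
        = z + X := by
      rw [Polynomial.eval_add, Polynomial.eval_mul, Polynomial.eval_C, Polynomial.eval_pow,
        Polynomial.eval_X, hγy, add_smul, hz, hX, Complex.coe_smul, add_assoc]
    have hyN : |y| ^ N ≤ |y| := by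
      calc |y| ^ N ≤ |y| ^ 1 := pow_le_pow_of_le_one (abs_nonneg _) hy1 (by omega)
        _ = |y| := pow_one _
    have hz1 : ‖z - p‖ ≤ C * |y| * ‖e‖ := by
      rw [hz, add_sub_cancel_left, norm_smul]
      refine mul_le_mul_of_nonneg_right ?_ (norm_nonneg _)
      have := hCb (Complex.I * (y : ℂ)) (by rw [hIy]; exact hy1)
      rwa [hIy] at this
    have hX1 : ‖X‖ = |eN| * |y| ^ N * ‖e‖ := by
      rw [hX, norm_smul, Real.norm_eq_abs, abs_mul, abs_pow]
    have hsum : ‖z - p‖ + ‖X‖ ≤ A * |y| := by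
      rw [hX1, hA]
      have h1 : |eN| * |y| ^ N * ‖e‖ ≤ |eN| * |y| * ‖e‖ :=
        mul_le_mul_of_nonneg_right (mul_le_mul_of_nonneg_left hyN (abs_nonneg _)) (norm_nonneg _)
      have h2 : 0 ≤ (C + |eN|) * |y| := by positivity
      nlinarith
    have hlt : ‖z - p‖ + ‖X‖ < δ := by
      have : A * |y| < δ := by nlinarith
      exact hsum.trans_lt this
    have h1 := hLδ z X hlt
    have h2 : fderiv ℝ ρ p X = -(eN * y ^ N) := by
      rw [hX, (fderiv ℝ ρ p).map_smul, he, smul_eq_mul, mul_neg, mul_one]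
    rw [h2, sub_neg_eq_add] at h1
    have h3 : |ρ z - eN * y ^ N| ≤ K1 * |y| ^ (N + 1) := hlead y hy1
    have h4 : L * (‖z - p‖ + ‖X‖) * ‖X‖ ≤ L * A * (|eN| * (‖e‖ + 1)) * |y| ^ (N + 1) := by
      have h5 : ‖X‖ ≤ |eN| * (‖e‖ + 1) * |y| ^ N := by
        rw [hX1]
        have : 0 ≤ |eN| * |y| ^ N := by positivity
        nlinarith
      have h6 : L * (‖z - p‖ + ‖X‖) ≤ L * (A * |y|) := mul_le_mul_of_nonneg_left hsum hL.le
      calc L * (‖z - p‖ + ‖X‖) * ‖X‖ ≤ (L * (A * |y|)) * (|eN| * (‖e‖ + 1) * |y| ^ N) :=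
            mul_le_mul h6 h5 (norm_nonneg _) (by positivity)
        _ = L * A * (|eN| * (‖e‖ + 1)) * |y| ^ (N + 1) := by ring
    rw [hzX]
    have h5 : ρ (z + X) = (ρ (z + X) - ρ z + eN * y ^ N) + (ρ z - eN * y ^ N) := by ring
    rw [h5]
    refine (abs_add_le _ _).trans ?_
    rw [add_mul]
    linarith [h1.trans h4]

/-- SQ-F -/
theorem flat_main : S_flat := flat

end Pool.Agent.W803.SQ
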