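import Pool.Agent.W737.SQ.Defs

/-! SQ-J: one-dimensional Taylor expansion, holomorphic polynomial on the imaginary axis
(helper803). -/

set_option autoImplicit false

open Metric Set Filter Topology

namespace Pool.Agent.W803.SQ
open Pool.Agent.W737.SQ

/-- two-sided Taylor bound of a smooth curve on `[-1,1]` -/
theorem taylor1 {E : Type*} [NormedAddCommGroup E] [NormedSpace ℝ E] (N : ℕ) :
    ∀ T : ℝ → E, ContDiff ℝ ((⊤ : ℕ∞) : WithTop ℕ∞) T →
      ∃ K : ℝ, 0 < K ∧ ∀ y : ℝ, |y| ≤ 1 →
        ‖T y - ∑ j ∈ Finset.range N, (y ^ j / (j.factorial : ℝ)) • iteratedDeriv j T 0‖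
          ≤ K * |y| ^ N := by
  induction N with
  | zero =>
    intro T hT
    have hc : ContinuousOn (fun y => ‖T y‖) (Icc (-1 : ℝ) 1) := hT.continuous.norm.continuousOn
    obtain ⟨M, hM⟩ := (isCompact_Icc.image_of_continuousOn hc).bddAbove
    refine ⟨|M| + 1, by positivity, fun y hy => ?_⟩
    have := hM ⟨y, abs_le.1 hy, rfl⟩
    simp only [Finset.range_zero, Finset.sum_empty, sub_zero, pow_zero, mul_one]
    simp only at this
    linarith [le_abs_self M]
  | succ N ih =>
    intro T hT
    have hd : Differentiable ℝ T := hT.differentiable (by simp)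
    have hT' : ContDiff ℝ ((⊤ : ℕ∞) : WithTop ℕ∞) (deriv T) := by
      have h := (contDiff_succ_iff_deriv (n := ((⊤ : ℕ∞) : WithTop ℕ∞)) (f := T)).1 (by
        simpa using hT)
      exact h.2.2
    obtain ⟨K, hK, hb⟩ := ih (deriv T) hT'
    refine ⟨K, hK, fun y hy => ?_⟩
    set G : ℝ → E := fun x => T x -
      ∑ j ∈ Finset.range (N + 1), (x ^ j / (j.factorial : ℝ)) • iteratedDeriv j T 0 with hG
    have hG' : ∀ x : ℝ, HasDerivAt G (deriv T x -
        ∑ j ∈ Finset.range N, (x ^ j / (j.factorial : ℝ)) • iteratedDeriv j (deriv T) 0) x := by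
      intro x
      refine (hd x).hasDerivAt.sub ?_
      have h1 : ∀ j ∈ Finset.range (N + 1),
          HasDerivAt (fun x : ℝ => (x ^ j / (j.factorial : ℝ)) • iteratedDeriv j T 0)
            ((((j : ℝ) * x ^ (j - 1)) / (j.factorial : ℝ)) • iteratedDeriv j T 0) x := by
        intro j _
        exact ((hasDerivAt_pow j x).div_const _).smul_const _
      have h2 := HasDerivAt.fun_sum h1
      refine h2.congr_deriv ?_
      rw [Finset.sum_range_succ']
      simp only [Nat.cast_zero, zero_mul, zero_div, zero_smul, add_zero]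
      refine Finset.sum_congr rfl fun j _ => ?_
      rw [iteratedDeriv_succ', Nat.factorial_succ, Nat.add_sub_cancel]
      congr 1
      have h3 : ((j.factorial : ℝ)) ≠ 0 := by positivity
      have h4 : ((j : ℝ) + 1) ≠ 0 := by positivity
      push_cast
      field_simp
    have hG0 : G 0 = 0 := by
      simp only [hG]
      rw [Finset.sum_range_succ']
      simp
    have h1 := (convex_closedBall (0 : ℝ) |y|).norm_image_sub_le_of_norm_hasDerivWithin_le
      (f := G) (C := K * |y| ^ N) (fun x _ => (hG' x).hasDerivWithinAt) (fun x hx => by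
        rw [mem_closedBall, dist_zero_right, Real.norm_eq_abs] at hx
        refine (hb x (hx.trans hy)).trans ?_
        exact mul_le_mul_of_nonneg_left (pow_le_pow_left₀ (abs_nonneg _) hx _) hK.le)
      (mem_closedBall_self (abs_nonneg y)) (y := y) (by
        rw [mem_closedBall, dist_zero_right, Real.norm_eq_abs])
    rw [hG0, sub_zero, sub_zero, Real.norm_eq_abs] at h1
    calc ‖G y‖ ≤ K * |y| ^ N * |y| := h1
      _ = K * |y| ^ (N + 1) := by ring

/-- SQ-J -/
theorem jet : S_jet := by
  intro n T hT N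
  obtain ⟨K, hK, hb⟩ := taylor1 N T hT
  refine ⟨fun ζ => ∑ j ∈ Finset.range N,
    ((-Complex.I * ζ) ^ j / (j.factorial : ℂ)) • iteratedDeriv j T 0, ?_, K, 1, hK, one_pos,
    fun y hy => ?_⟩
  · refine Differentiable.fun_sum fun j _ => ?_
    exact (((differentiable_id.const_mul (-Complex.I)).pow j).div_const _).smul_const _
  · have h1 : ∑ j ∈ Finset.range N,
        ((-Complex.I * (Complex.I * (y : ℂ))) ^ j / (j.factorial : ℂ)) • iteratedDeriv j T 0 =
        ∑ j ∈ Finset.range N, (y ^ j / (j.factorial : ℝ)) • iteratedDeriv j T 0 := by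
      refine Finset.sum_congr rfl fun j _ => ?_
      have h2 : -Complex.I * (Complex.I * (y : ℂ)) = (y : ℂ) := by
        rw [← mul_assoc, neg_mul, Complex.I_mul_I, neg_neg, one_mul]
      have h3 : ((y : ℂ) ^ j / (j.factorial : ℂ)) = ((y ^ j / (j.factorial : ℝ) : ℝ) : ℂ) := by
        push_cast
        rfl
      rw [h2, h3]
      ext v
      simp only [FunLike.coe_smul, Pi.smul_apply, smul_eq_mul, Complex.real_smul]
    show ‖T y - ∑ j ∈ Finset.range N,
        ((-Complex.I * (Complex.I * (y : ℂ))) ^ j / (j.factorial : ℂ)) • iteratedDeriv j T 0‖ ≤ _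
    rw [h1]
    exact hb y hy

/-- SQ-J -/
theorem jet_main : S_jet := jet

end Pool.Agent.W803.SQ
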