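import Pool.Agent.W737.SQ.Defs

/-! SQ-L: the Levi form along a transversal slice (helper803). -/

set_option autoImplicit false

open Metric Set Filter Topology

namespace Pool.Agent.W803.SQ
open Pool.Agent.W737.SQ

variable {n : ℕ}

theorem smul_decomp (c : ℂ) (X : V n) : c • X = (c.re : ℝ) • X + (c.im : ℝ) • (Complex.I • X) := by
  ext i
  simp only [PiLp.smul_apply, PiLp.add_apply, smul_eq_mul, Complex.real_smul]
  conv_lhs => rw [← Complex.re_add_im c]
  ring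

theorem I_smul_decomp (c : ℂ) (X : V n) :
    Complex.I • (c • X) = (c.re : ℝ) • (Complex.I • X) - (c.im : ℝ) • X := by
  rw [smul_smul, smul_decomp (Complex.I * c) X, Complex.I_mul_re, Complex.I_mul_im, neg_smul]
  abel

theorem ell_add (ρ : V n → ℝ) (z X Y : V n) : ell ρ z (X + Y) = ell ρ z X + ell ρ z Y := by
  unfold ell
  rw [smul_add, map_add, map_add]
  push_cast
  ring

theorem ell_sub (ρ : V n → ℝ) (z X Y : V n) : ell ρ z (X - Y) = ell ρ z X - ell ρ z Y := by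
  unfold ell
  rw [smul_sub, map_sub, map_sub]
  push_cast
  ring

theorem ell_smul (ρ : V n → ℝ) (z : V n) (c : ℂ) (X : V n) :
    ell ρ z (c • X) = c * ell ρ z X := by
  unfold ell
  have h1 : fderiv ℝ ρ z (c • X) = c.re * fderiv ℝ ρ z X
      + c.im * fderiv ℝ ρ z (Complex.I • X) := by
    rw [smul_decomp c X, map_add, (fderiv ℝ ρ z).map_smul, (fderiv ℝ ρ z).map_smul,
      smul_eq_mul, smul_eq_mul]
  have h2 : fderiv ℝ ρ z (Complex.I • (c • X)) = c.re * fderiv ℝ ρ z (Complex.I • X)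
      - c.im * fderiv ℝ ρ z X := by
    rw [I_smul_decomp, map_sub, (fderiv ℝ ρ z).map_smul, (fderiv ℝ ρ z).map_smul,
      smul_eq_mul, smul_eq_mul]
  rw [h1, h2]
  conv_rhs => rw [← Complex.re_add_im c]
  push_cast
  linear_combination ((c.im : ℂ) * ((fderiv ℝ ρ z (Complex.I • X) : ℝ) : ℂ)) * Complex.I_sq

theorem ell_eq_zero {ρ : V n → ℝ} {z X : V n} (h : ell ρ z X = 0) :
    fderiv ℝ ρ z X = 0 ∧ fderiv ℝ ρ z (Complex.I • X) = 0 := by
  unfold ell at h
  have h1 := congrArg Complex.re h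
  have h2 := congrArg Complex.im h
  simp at h1 h2
  exact ⟨h1, h2⟩

theorem H4_smul (ρ : V n → ℝ) (z : V n) (c : ℂ) (X : V n) :
    H4 ρ z (c • X) = (c.re ^ 2 + c.im ^ 2) * H4 ρ z X := by
  unfold H4
  rw [I_smul_decomp, smul_decomp c X]
  simp only [map_add, map_sub, map_smul, add_apply,
    sub_apply, smul_apply, smul_eq_mul]
  ring

theorem smooth_D {ρ : V n → ℝ} (h : ContDiff ℝ ((⊤ : ℕ∞) : WithTop ℕ∞) ρ) :
    ContDiff ℝ ((⊤ : ℕ∞) : WithTop ℕ∞) (fderiv ℝ ρ) :=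
  h.fderiv_right (by exact_mod_cast le_top)

theorem smooth_ell {ρ : V n → ℝ} (h : ContDiff ℝ ((⊤ : ℕ∞) : WithTop ℕ∞) ρ) (X : V n) :
    ContDiff ℝ ((⊤ : ℕ∞) : WithTop ℕ∞) (fun z => ell ρ z X) := by
  unfold ell
  have h1 : ∀ Y : V n, ContDiff ℝ ((⊤ : ℕ∞) : WithTop ℕ∞)
      (fun z => ((fderiv ℝ ρ z Y : ℝ) : ℂ)) := fun Y =>
    Complex.ofRealCLM.contDiff.comp ((smooth_D h).clm_apply contDiff_const)
  exact (h1 X).sub (contDiff_const.mul (h1 _))

theorem smooth_smul {f : V n → ℂ} (h : ContDiff ℝ ((⊤ : ℕ∞) : WithTop ℕ∞) f) (X : V n) :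
    ContDiff ℝ ((⊤ : ℕ∞) : WithTop ℕ∞) (fun z => f z • X) := by
  have h1 : (fun z => f z • X) =
      fun z => ((ContinuousLinearMap.toSpanSingleton ℂ X).restrictScalars ℝ) (f z) := by
    funext z
    simp
  rw [h1]
  exact ((ContinuousLinearMap.toSpanSingleton ℂ X).restrictScalars ℝ).contDiff.comp h

theorem smooth_tang {ρ : V n → ℝ} (h : ContDiff ℝ ((⊤ : ℕ∞) : WithTop ℕ∞) ρ) (e W : V n) :
    ContDiff ℝ ((⊤ : ℕ∞) : WithTop ℕ∞) (fun z => tang ρ e W z) := by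
  unfold tang
  exact (smooth_smul (smooth_ell h e) W).sub (smooth_smul (smooth_ell h W) e)

theorem smooth_H4 {ρ : V n → ℝ} (h : ContDiff ℝ ((⊤ : ℕ∞) : WithTop ℕ∞) ρ) {T : V n → V n}
    (hT : ContDiff ℝ ((⊤ : ℕ∞) : WithTop ℕ∞) T) :
    ContDiff ℝ ((⊤ : ℕ∞) : WithTop ℕ∞) (fun z => H4 ρ z (T z)) := by
  unfold H4
  have h2 : ContDiff ℝ ((⊤ : ℕ∞) : WithTop ℕ∞) (fderiv ℝ (fderiv ℝ ρ)) :=
    (smooth_D h).fderiv_right (by exact_mod_cast le_top)
  have hI : ContDiff ℝ ((⊤ : ℕ∞) : WithTop ℕ∞) (fun z => Complex.I • T z) := hT.const_smul _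
  exact ((h2.clm_apply hT).clm_apply hT).add ((h2.clm_apply hI).clm_apply hI)

/-- a smooth function with a lower quadratic bound at a zero has an upper quadratic bound -/
theorem quad_upper {G : ℝ → ℝ} (hG : ContDiff ℝ ((⊤ : ℕ∞) : WithTop ℕ∞) G) (h0 : G 0 = 0)
    {C r : ℝ} (hr : 0 < r) (hlow : ∀ y : ℝ, |y| < r → -(C * y ^ 2) ≤ G y) :
    ∃ K s : ℝ, 0 < K ∧ 0 < s ∧ ∀ y : ℝ, |y| < s → G y ≤ K * y ^ 2 := by
  have hd : Differentiable ℝ G := hG.differentiable (by simp)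
  have hG0 : deriv G 0 = 0 := by
    have hmin : IsLocalMin (fun y => G y + C * y ^ 2) 0 := by
      filter_upwards [Metric.ball_mem_nhds (0 : ℝ) hr] with y hy
      rw [Metric.mem_ball, dist_zero_right, Real.norm_eq_abs] at hy
      have := hlow y hy
      simp only [h0]
      nlinarith
    have h1 := hmin.deriv_eq_zero
    have h2 : HasDerivAt (fun y => G y + C * y ^ 2) (deriv G 0 + C * (2 * 0)) 0 := by
      have h3 : HasDerivAt (fun y : ℝ => y ^ 2) (2 * 0) 0 := by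
        simpa using (hasDerivAt_pow 2 (0 : ℝ))
      exact (hd 0).hasDerivAt.add (h3.const_mul C)
    rw [h2.deriv] at h1
    linarith
  have hG1 : ContDiff ℝ 1 (deriv G) := by
    have h1 : ContDiff ℝ (1 + 1) G := hG.of_le (by
      have : ((1 : WithTop ℕ∞) + 1) = ((2 : ℕ∞) : WithTop ℕ∞) := by norm_num
      rw [this]
      exact WithTop.coe_le_coe.2 le_top)
    exact ((contDiff_succ_iff_deriv (n := 1)).1 h1).2.2
  obtain ⟨K, t, ht, hK⟩ := hG1.locallyLipschitz 0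
  obtain ⟨s, hs, hst⟩ := Metric.mem_nhds_iff.1 ht
  refine ⟨K + 1, s, by positivity, hs, fun y hy => ?_⟩
  have hb : ∀ x ∈ closedBall (0 : ℝ) |y|, ‖deriv G x‖ ≤ K * |y| := by
    intro x hx
    rw [mem_closedBall, dist_zero_right, Real.norm_eq_abs] at hx
    have h1 := hK.dist_le_mul x (hst (by
      rw [Metric.mem_ball, dist_zero_right, Real.norm_eq_abs]; linarith)) 0
      (hst (Metric.mem_ball_self hs))
    rw [hG0, dist_zero_right, dist_zero_right, Real.norm_eq_abs x] at h1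
    exact h1.trans (mul_le_mul_of_nonneg_left hx K.coe_nonneg)
  have h2 := (convex_closedBall (0 : ℝ) |y|).norm_image_sub_le_of_norm_deriv_le
    (fun x _ => hd x) hb (mem_closedBall_self (abs_nonneg y)) (y := y) (by
      rw [mem_closedBall, dist_zero_right, Real.norm_eq_abs])
  rw [h0, sub_zero, sub_zero, Real.norm_eq_abs, Real.norm_eq_abs] at h2
  have h3 : K * |y| * |y| = K * y ^ 2 := by
    rw [mul_assoc, ← sq, sq_abs]
  have := le_abs_self (G y)
  nlinarith [sq_nonneg y]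

theorem levi : S_bdry → S_levi := by
  intro hB n Ω ρ hΩ p hp e W hW hIW hH Γ hΓ hΓ0 ⟨K0, r0, hr0, hρΓ⟩
  obtain ⟨K1, R1, hK1, hR1, hbd⟩ := hB n Ω ρ hΩ p hp
  set lam : V n → ℝ := fun z => H4 ρ z (tang ρ e W z) with hlam
  have hsl : ContDiff ℝ ((⊤ : ℕ∞) : WithTop ℕ∞) lam :=
    smooth_H4 hΩ.smooth (smooth_tang hΩ.smooth e W)
  set F : ℂ → ℝ := fun ζ => lam (Γ ζ) with hF
  have hsF : ContDiff ℝ ((⊤ : ℕ∞) : WithTop ℕ∞) F := hsl.comp hΓ
  -- the value at `p`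
  have hell0 : ell ρ p W = 0 := by
    unfold ell
    rw [hW, hIW]
    simp
  have hlamp : lam p = 0 := by
    rw [hlam]
    show H4 ρ p (tang ρ e W p) = 0
    unfold tang
    rw [hell0, zero_smul, sub_zero, H4_smul, hH, mul_zero]
  -- frontier points
  have hfr : ∀ q ∈ frontier Ω, 0 ≤ lam q := by
    intro q hq
    have h1 : ell ρ q (tang ρ e W q) = 0 := by
      unfold tang
      rw [ell_sub, ell_smul, ell_smul]
      ring
    obtain ⟨h2, h3⟩ := ell_eq_zero h1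
    exact hΩ.psc q hq _ h2 h3
  obtain ⟨K2, t2, ht2, hK2⟩ := (hsl.of_le (by exact_mod_cast le_top) :
    ContDiff ℝ 1 lam).locallyLipschitz p
  obtain ⟨ε, hε, hεt⟩ := Metric.mem_nhds_iff.1 ht2
  -- lower bound on the imaginary axis
  have hcont : ContinuousAt (fun y : ℝ => Γ (Complex.I * (y : ℂ))) 0 :=
    (hΓ.continuous.comp (continuous_const.mul Complex.continuous_ofReal)).continuousAt
  have hmin : 0 < min R1 (ε / 2) := lt_min hR1 (by linarith)
  obtain ⟨r1, hr1, hr1'⟩ := Metric.continuousAt_iff.1 hcont _ hmin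
  set G : ℝ → ℝ := fun y => F (Complex.I * (y : ℂ)) with hG
  have hsG : ContDiff ℝ ((⊤ : ℕ∞) : WithTop ℕ∞) G :=
    hsF.comp (contDiff_const.mul Complex.ofRealCLM.contDiff)
  have hG0 : G 0 = 0 := by
    rw [hG, hF]
    show lam (Γ (Complex.I * ((0 : ℝ) : ℂ))) = 0
    rw [Complex.ofReal_zero, mul_zero, hΓ0, hlamp]
  -- smallness of the boundary distance
  obtain ⟨r2, hr2, hr2'⟩ : ∃ r2 : ℝ, 0 < r2 ∧ ∀ y : ℝ, |y| < r2 → K1 * (|K0| * y ^ 2) < ε / 2 := by
    refine ⟨min 1 (ε / 2 / (K1 * |K0| + 1)), by positivity, fun y hy => ?_⟩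
    have h1 : |y| < 1 := hy.trans_le (min_le_left _ _)
    have h2 : |y| < ε / 2 / (K1 * |K0| + 1) := hy.trans_le (min_le_right _ _)
    rw [lt_div_iff₀ (by positivity)] at h2
    have h3 : y ^ 2 ≤ |y| := by
      rw [← sq_abs]
      nlinarith [abs_nonneg y]
    have h4 : K1 * (|K0| * y ^ 2) ≤ K1 * |K0| * |y| := by
      have := mul_le_mul_of_nonneg_left h3 (by positivity : 0 ≤ K1 * |K0|)
      linarith
    nlinarith [abs_nonneg y]
  have hlow : ∀ y : ℝ, |y| < min r0 (min r1 r2) → -((K2 * (K1 * |K0|)) * y ^ 2) ≤ G y := by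
    intro y hy
    have hy0 : |y| < r0 := hy.trans_le (min_le_left _ _)
    have hy1 : |y| < r1 := hy.trans_le ((min_le_right _ _).trans (min_le_left _ _))
    have hy2 : |y| < r2 := hy.trans_le ((min_le_right _ _).trans (min_le_right _ _))
    have h1 := hr1' (by rw [dist_zero_right, Real.norm_eq_abs]; exact hy1)
    simp only [Complex.ofReal_zero, mul_zero, hΓ0] at h1
    set z := Γ (Complex.I * (y : ℂ)) with hz
    have hzR : ‖z - p‖ < R1 := by
      rw [← dist_eq_norm]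
      exact h1.trans_le (min_le_left _ _)
    have hzε : dist z p < ε / 2 := h1.trans_le (min_le_right _ _)
    obtain ⟨q, hq, hzq⟩ := hbd z hzR
    have hρz : |ρ z| ≤ |K0| * y ^ 2 := (hρΓ y hy0).trans
      (mul_le_mul_of_nonneg_right (le_abs_self _) (sq_nonneg y))
    have hzq' : dist z q ≤ K1 * (|K0| * y ^ 2) := by
      rw [dist_eq_norm]
      exact hzq.trans (mul_le_mul_of_nonneg_left hρz hK1.le)
    have hqε : dist q p < ε := by
      have h2 := hr2' y hy2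
      have h3 := dist_triangle q z p
      rw [dist_comm q z] at h3
      linarith
    have h4 := hK2.dist_le_mul z (hεt (by rw [Metric.mem_ball]; linarith)) q (hεt hqε)
    rw [Real.dist_eq] at h4
    have h5 := hfr q hq
    have h6 := (abs_le.1 (h4.trans (mul_le_mul_of_nonneg_left hzq' K2.coe_nonneg))).1
    show -((K2 * (K1 * |K0|)) * y ^ 2) ≤ lam z
    nlinarith
  obtain ⟨K3, s3, hK3, hs3, hup⟩ := quad_upper hsG hG0 (lt_min hr0 (lt_min hr1 hr2)) hlow
  -- Lipschitz in the real direction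
  obtain ⟨K4, t4, ht4, hK4⟩ := (hsF.of_le (by exact_mod_cast le_top) :
    ContDiff ℝ 1 F).locallyLipschitz 0
  obtain ⟨s4, hs4, hs4t⟩ := Metric.mem_nhds_iff.1 ht4
  refine ⟨K3 + K4, min s3 s4, by positivity, lt_min hs3 hs4, fun ζ hζ => ?_⟩
  have him : |ζ.im| ≤ ‖ζ‖ := Complex.abs_im_le_norm ζ
  have hζ3 : |ζ.im| < s3 := him.trans_lt (hζ.trans_le (min_le_left _ _))
  have hn : ‖Complex.I * (ζ.im : ℂ)‖ = |ζ.im| := by
    rw [norm_mul, Complex.norm_I, one_mul, Complex.norm_real, Real.norm_eq_abs]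
  have h1 := hup ζ.im hζ3
  have h2 := hK4.dist_le_mul ζ (hs4t (by
    rw [Metric.mem_ball, dist_zero_right]; exact hζ.trans_le (min_le_right _ _)))
    (Complex.I * (ζ.im : ℂ)) (hs4t (by
      rw [Metric.mem_ball, dist_zero_right, hn]
      exact him.trans_lt (hζ.trans_le (min_le_right _ _))))
  have h3 : dist ζ (Complex.I * (ζ.im : ℂ)) = |ζ.re| := by
    rw [dist_eq_norm]
    have : ζ - Complex.I * (ζ.im : ℂ) = (ζ.re : ℂ) :=
      Complex.ext (by simp) (by simp)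
    rw [this, Complex.norm_real, Real.norm_eq_abs]
  rw [h3, Real.dist_eq] at h2
  have h4 := (abs_le.1 h2).2
  have h5 : ζ.im ^ 2 ≤ ‖ζ‖ ^ 2 := by
    rw [← sq_abs]
    exact pow_le_pow_left₀ (abs_nonneg _) him 2
  show F ζ ≤ _
  have h6 : F (Complex.I * (ζ.im : ℂ)) ≤ K3 * ζ.im ^ 2 := h1
  have h7 : (0 : ℝ) ≤ K4 * ‖ζ‖ ^ 2 := by positivity
  have h8 : 0 ≤ K3 * |ζ.re| := by positivity
  have h9 : K3 * ζ.im ^ 2 ≤ K3 * ‖ζ‖ ^ 2 := mul_le_mul_of_nonneg_left h5 hK3.le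
  nlinarith

/-- SQ-L -/
theorem main : S_bdry → S_levi := levi

end Pool.Agent.W803.SQ
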